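import Mathlib

/-!
# The construction with all triples that have exactly one point in a small set
-/

set_option autoImplicit false
open Finset Filter Topology
open scoped Classical

namespace Pool.Agent.V11262.K4

/-- the triples with exactly one point among the first `m` points -/
noncomputable def star (n m : ℕ) : Finset (Finset (Fin n)) :=
  univ.filter fun e => e.card = 3 ∧ (e.filter fun i => i.val < m).card = 1

theorem star_card {n m : ℕ} : ∀ e ∈ star n m, e.card = 3 := fun e he =>
  (Finset.mem_filter.mp he).2.1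

theorem star_free {n m : ℕ} (S : Finset (Fin n)) (hS : S.card = 4) :
    ∃ T ⊆ S, T.card = 3 ∧ T ∉ star n m := by
  by_contra hc
  push Not at hc
  have h1 : ∀ x ∈ S, ((S.erase x).filter fun i => i.val < m).card = 1 := by
    intro x hx
    have h2 := hc (S.erase x) (Finset.erase_subset _ _) (by rw [Finset.card_erase_of_mem hx, hS])
    exact (Finset.mem_filter.mp h2).2.2
  set s : ℕ := (S.filter fun i => i.val < m).card with hs
  have h3 : ∀ x ∈ S, x.val < m → s = 2 := by
    intro x hx hxm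
    have h4 := h1 x hx
    rw [Finset.filter_erase, Finset.card_erase_of_mem (by simp [hx, hxm])] at h4
    have : 0 < s := by
      rw [hs]
      exact Finset.card_pos.mpr ⟨x, by simp [hx, hxm]⟩
    omega
  have h5 : ∀ x ∈ S, ¬ x.val < m → s = 1 := by
    intro x hx hxm
    have h4 := h1 x hx
    rw [Finset.filter_erase, Finset.erase_eq_of_notMem (by simp [hxm])] at h4
    exact h4
  obtain ⟨x, hx⟩ : S.Nonempty := Finset.card_pos.mp (by omega)
  by_cases hex : ∃ y ∈ S, y.val < m
  · obtain ⟨y, hy, hym⟩ := hex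
    have e1 := h3 y hy hym
    by_cases hey : ∃ z ∈ S, ¬ z.val < m
    · obtain ⟨z, hz, hzm⟩ := hey
      have e2 := h5 z hz hzm
      omega
    · push Not at hey
      have : S.filter (fun i => i.val < m) = S := Finset.filter_true_of_mem hey
      rw [this] at hs
      omega
  · push Not at hex
    have e2 := h5 x hx (by have := hex x hx; omega)
    have : S.filter (fun i => i.val < m) = ∅ :=
      Finset.filter_false_of_mem fun z hz => by have := hex z hz; omega
    rw [this] at hs
    simp at hs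
    omega

/-- the points among the first `m` -/
noncomputable def fst (n m : ℕ) : Finset (Fin n) := univ.filter fun i => i.val < m

theorem card_fst {n m : ℕ} (h : m ≤ n) : (fst n m).card = m := by
  unfold fst
  rw [Fin.card_filter_val_lt]
  omega

theorem card_snd {n m : ℕ} (h : m ≤ n) : (univ.filter fun i : Fin n => ¬ i.val < m).card = n - m := by
  have h1 := Finset.card_filter_add_card_filter_not (s := (univ : Finset (Fin n)))
    (fun i => i.val < m)
  have h2 := card_fst h
  unfold fst at h2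
  rw [Finset.card_univ, Fintype.card_fin] at h1
  omega

theorem star_codeg {n m : ℕ} (h : m ≤ n) {a b : Fin n} (ha : ¬ a.val < m) (hb : b.val < m) :
    n - m - 1 ≤ (univ.filter fun z => ({a, b, z} : Finset (Fin n)) ∈ star n m).card ∧
    n - m - 1 ≤ (univ.filter fun z => ({b, a, z} : Finset (Fin n)) ∈ star n m).card := by
  have key : n - m - 1 ≤ (univ.filter fun z => ({a, b, z} : Finset (Fin n)) ∈ star n m).card := by
    have hmem : a ∈ univ.filter fun i : Fin n => ¬ i.val < m :=
      Finset.mem_filter.mpr ⟨Finset.mem_univ _, ha⟩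
    have h1 : ((univ.filter fun i : Fin n => ¬ i.val < m).erase a).card = n - m - 1 := by
      rw [Finset.card_erase_of_mem hmem, card_snd h]
    rw [← h1]
    apply Finset.card_le_card
    intro z hz
    rw [Finset.mem_erase, Finset.mem_filter] at hz
    obtain ⟨hza, -, hzm⟩ := hz
    have hab : a ≠ b := fun e => ha (e ▸ hb)
    have hbz : b ≠ z := fun e => hzm (e ▸ hb)
    rw [Finset.mem_filter]
    refine ⟨Finset.mem_univ _, ?_⟩
    unfold star
    rw [Finset.mem_filter]
    refine ⟨Finset.mem_univ _, ?_, ?_⟩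
    · rw [Finset.card_eq_three]
      exact ⟨a, b, z, hab, fun e => hza e.symm, hbz, rfl⟩
    · have : ({a, b, z} : Finset (Fin n)).filter (fun i => i.val < m) = {b} := by
        ext i
        simp only [Finset.mem_filter, Finset.mem_insert, Finset.mem_singleton]
        constructor
        · rintro ⟨h2 | h2 | h2, h3⟩
          · exact absurd (h2 ▸ h3) ha
          · exact h2
          · exact absurd (h2 ▸ h3) hzm
        · rintro rfl
          exact ⟨Or.inr (Or.inl rfl), hb⟩
      rw [this, Finset.card_singleton]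
  refine ⟨key, ?_⟩
  have : ∀ z, ({b, a, z} : Finset (Fin n)) = {a, b, z} := fun z => Finset.insert_comm b a {z}
  simp only [this]
  exact key

/-- a lower bound for the sum of a function of the codegrees -/
theorem star_sum {n m : ℕ} (h : m ≤ n) (φ : ℕ → ℝ) (hφ : ∀ k, 0 ≤ φ k)
    (hφ2 : ∀ k, n - m - 1 ≤ k → φ (n - m - 1) ≤ φ k) :
    2 * (m : ℝ) * ((n - m : ℕ) : ℝ) * φ (n - m - 1) ≤
      ∑ x : Fin n, ∑ y : Fin n,
        φ ((univ.filter fun z => ({x, y, z} : Finset (Fin n)) ∈ star n m).card) := by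
  set c : Fin n → Fin n → ℝ := fun x y =>
    φ ((univ.filter fun z => ({x, y, z} : Finset (Fin n)) ∈ star n m).card) with hc
  have h0 : ∀ x y, 0 ≤ c x y := fun x y => hφ _
  have h1 : ∀ x y : Fin n, (if ¬ x.val < m then (if y.val < m then φ (n - m - 1) else 0) else 0) +
      (if x.val < m then (if ¬ y.val < m then φ (n - m - 1) else 0) else 0) ≤ c x y := by
    intro x y
    by_cases hx : x.val < m
    · by_cases hy : y.val < m
      · simp only [hx, hy, not_true_eq_false, if_false, if_true, add_zero]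
        exact h0 x y
      · simp only [hx, hy, not_true_eq_false, if_false, if_true, not_false_eq_true, zero_add]
        exact hφ2 _ (star_codeg h hy hx).2
    · by_cases hy : y.val < m
      · simp only [hx, hy, if_false, if_true, not_false_eq_true, add_zero]
        exact hφ2 _ (star_codeg h hx hy).1
      · simp only [hx, hy, if_false, not_false_eq_true, if_true, add_zero]
        exact h0 x y
  refine le_trans (le_of_eq ?_) (Finset.sum_le_sum fun x _ => Finset.sum_le_sum fun y _ => h1 x y)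
  simp only [Finset.sum_add_distrib]
  have e1 : ∑ y : Fin n, (if y.val < m then φ (n - m - 1) else 0) = m * φ (n - m - 1) := by
    rw [← Finset.sum_filter, Finset.sum_const, nsmul_eq_mul]
    have := card_fst h
    unfold fst at this
    rw [this]
  have e2 : ∑ y : Fin n, (if ¬ y.val < m then φ (n - m - 1) else 0) =
      ((n - m : ℕ) : ℝ) * φ (n - m - 1) := by
    rw [← Finset.sum_filter, Finset.sum_const, nsmul_eq_mul, card_snd h]
  have e3 : ∑ x : Fin n, ∑ y : Fin n,
      (if ¬ x.val < m then (if y.val < m then φ (n - m - 1) else 0) else 0) =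
      ((n - m : ℕ) : ℝ) * (m * φ (n - m - 1)) := by
    have : ∀ x : Fin n, ∑ y : Fin n,
        (if ¬ x.val < m then (if y.val < m then φ (n - m - 1) else 0) else 0) =
        if ¬ x.val < m then m * φ (n - m - 1) else 0 := by
      intro x
      by_cases hx : x.val < m
      · simp [hx]
      · simp only [hx, not_false_eq_true, if_true]
        exact e1
    simp only [this]
    rw [← Finset.sum_filter, Finset.sum_const, nsmul_eq_mul, card_snd h]
  have e4 : ∑ x : Fin n, ∑ y : Fin n,
      (if x.val < m then (if ¬ y.val < m then φ (n - m - 1) else 0) else 0) =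
      (m : ℝ) * (((n - m : ℕ) : ℝ) * φ (n - m - 1)) := by
    have : ∀ x : Fin n, ∑ y : Fin n,
        (if x.val < m then (if ¬ y.val < m then φ (n - m - 1) else 0) else 0) =
        if x.val < m then ((n - m : ℕ) : ℝ) * φ (n - m - 1) else 0 := by
      intro x
      by_cases hx : x.val < m
      · simp only [hx, if_true]
        exact e2
      · simp [hx]
    simp only [this]
    rw [← Finset.sum_filter, Finset.sum_const, nsmul_eq_mul]
    have := card_fst h
    unfold fst at this
    rw [this]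
  rw [e3, e4]
  ring

/-- the limit of the proportions -/
theorem floor_lim {β : ℝ} (hβ : 0 ≤ β) :
    Tendsto (fun n : ℕ => (⌊β * n⌋₊ : ℝ) / n) atTop (𝓝 β) :=
  (tendsto_nat_floor_mul_div_atTop hβ).comp tendsto_natCast_atTop_atTop

/-- **the lower bound for the sums of powers** -/
theorem lower_p {p : ℝ} (hp : 1 ≤ p) {δ : ℝ} (hδ : 0 < δ) :
    ∃ N : ℕ, ∀ n : ℕ, N ≤ n → ∃ m : ℕ,
      (2 / (Real.exp 1 * (p + 2)) - δ) * (n : ℝ) ^ (p + 2) ≤
        ∑ x : Fin n, ∑ y : Fin n,
          ((univ.filter fun z => ({x, y, z} : Finset (Fin n)) ∈ star n m).card : ℝ) ^ p := by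
  set β : ℝ := 1 / (p + 2) with hβ
  have hβ0 : 0 < β := by positivity
  have hβ1 : β < 1 := by rw [hβ, div_lt_one (by linarith)]; linarith
  -- the value
  have hval : 2 / (Real.exp 1 * (p + 2)) ≤ 2 * β * (1 - β) * (1 - β) ^ p := by
    have h1 : 0 < 1 - β := by linarith
    have h2 : (1 - β) * (1 - β) ^ p = (1 - β) ^ (p + 1) := by
      rw [Real.rpow_add_one h1.ne']
      ring
    have h3 : Real.exp (-1) ≤ (1 - β) ^ (p + 1) := by
      rw [Real.rpow_def_of_pos h1]
      apply Real.exp_le_exp.mpr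
      have h4 := Real.one_sub_inv_le_log_of_pos h1
      have h5 : 1 - (1 - β)⁻¹ = -(1 / (p + 1)) := by
        have h6 : 1 - β = (p + 1) / (p + 2) := by
          rw [hβ]
          field_simp
          ring
        rw [h6, inv_div]
        have h7 : p + 1 ≠ 0 := by linarith
        field_simp
        ring
      rw [h5] at h4
      calc (-1 : ℝ) = -(1 / (p + 1)) * (p + 1) := by field_simp
        _ ≤ _ := mul_le_mul_of_nonneg_right h4 (by linarith)
    calc 2 / (Real.exp 1 * (p + 2)) = 2 * β * Real.exp (-1) := by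
          rw [Real.exp_neg, hβ]
          field_simp
      _ ≤ 2 * β * (1 - β) ^ (p + 1) := mul_le_mul_of_nonneg_left h3 (by positivity)
      _ = _ := by rw [← h2]; ring
  -- the limit
  have hm := floor_lim hβ0.le
  have hinv : Tendsto (fun n : ℕ => (1:ℝ) / n) atTop (𝓝 0) := tendsto_one_div_atTop_nhds_zero_nat
  have hlim : Tendsto (fun n : ℕ => 2 * ((⌊β * n⌋₊ : ℝ) / n) * (1 - (⌊β * n⌋₊ : ℝ) / n) *
      (1 - (⌊β * n⌋₊ : ℝ) / n - 1 / n) ^ p) atTop (𝓝 (2 * β * (1 - β) * (1 - β - 0) ^ p)) := by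
    apply Tendsto.mul
    · exact (hm.const_mul 2).mul (hm.const_sub 1)
    · apply Tendsto.rpow_const ((hm.const_sub 1).sub hinv)
      left
      linarith
  rw [sub_zero] at hlim
  have hev := hlim.eventually (lt_mem_nhds (show 2 * β * (1 - β) * (1 - β) ^ p - δ <
    2 * β * (1 - β) * (1 - β) ^ p by linarith))
  have hev2 : ∀ᶠ n : ℕ in atTop, (⌊β * n⌋₊ : ℝ) / n + 1 / n < 1 := by
    have h1 : Tendsto (fun n : ℕ => (⌊β * n⌋₊ : ℝ) / n + 1 / n) atTop (𝓝 (β + 0)) := hm.add hinv
    rw [add_zero] at h1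
    exact h1.eventually (gt_mem_nhds hβ1)
  obtain ⟨N, hN⟩ := eventually_atTop.mp (hev.and (hev2.and (eventually_gt_atTop 0)))
  refine ⟨N, fun n hn => ⟨⌊β * n⌋₊, ?_⟩⟩
  obtain ⟨h1, h2, h3⟩ := hN n hn
  set m : ℕ := ⌊β * n⌋₊ with hmd
  have hn0 : (0:ℝ) < n := by exact_mod_cast h3
  have hmn : m + 1 ≤ n := by
    have : (m : ℝ) + 1 < n := by
      have h4 : ((m : ℝ) + 1) / n < 1 := by
        rw [add_div]
        exact h2
      rwa [div_lt_one hn0] at h4
    exact_mod_cast this.le
  have hS := star_sum (n := n) (m := m) (by omega) (fun k => (k : ℝ) ^ p)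
    (fun k => by positivity) (fun k hk => by
      apply Real.rpow_le_rpow (by positivity) (by exact_mod_cast hk) (by linarith))
  refine le_trans ?_ hS
  have e1 : ((n - m : ℕ) : ℝ) = n - m := by
    rw [Nat.cast_sub (by omega)]
  have e2 : ((n - m - 1 : ℕ) : ℝ) = n * (1 - (m : ℝ) / n - 1 / n) := by
    rw [Nat.cast_sub (by omega), Nat.cast_sub (by omega)]
    field_simp
    simp
  have e3 : 0 ≤ 1 - (m : ℝ) / n - 1 / n := by linarith
  rw [e2, e1, Real.mul_rpow hn0.le e3]
  have e4 : (n : ℝ) ^ (p + 2) = n ^ p * (n * n) := by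
    rw [Real.rpow_add hn0, Real.rpow_two]
    ring
  rw [e4]
  have e5 : 2 * (m : ℝ) * ((n : ℝ) - m) * ((n : ℝ) ^ p * (1 - (m : ℝ) / n - 1 / n) ^ p) =
      (2 * ((m : ℝ) / n) * (1 - (m : ℝ) / n) * (1 - (m : ℝ) / n - 1 / n) ^ p) *
        ((n : ℝ) ^ p * (n * n)) := by
    field_simp
  rw [e5]
  apply mul_le_mul_of_nonneg_right _ (by positivity)
  linarith

/-- **the lower bound for the number of pairs of large codegree** -/
theorem lower_e {ε : ℝ} (hε : 0 < ε) (hε1 : ε ≤ 1) {δ : ℝ} (hδ : 0 < δ) :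
    ∃ N : ℕ, ∀ n : ℕ, N ≤ n → ∃ m : ℕ,
      (2 * ε * (1 - ε) - δ) * (n : ℝ) ^ 2 ≤
        ((univ.filter fun q : Fin n × Fin n => (1 - ε) * (n : ℝ) ≤
          ((univ.filter fun z => ({q.1, q.2, z} : Finset (Fin n)) ∈ star n m).card : ℝ)).card
            : ℝ) := by
  have hm := floor_lim hε.le
  have hinv : Tendsto (fun n : ℕ => (1:ℝ) / n) atTop (𝓝 0) := tendsto_one_div_atTop_nhds_zero_nat
  have hlim : Tendsto (fun n : ℕ => 2 * ((⌊ε * n⌋₊ : ℝ) / n - 1 / n) *
      (1 - (⌊ε * n⌋₊ : ℝ) / n)) atTop (𝓝 (2 * (ε - 0) * (1 - ε))) :=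
    ((hm.sub hinv).const_mul 2).mul (hm.const_sub 1)
  rw [sub_zero] at hlim
  have hev := hlim.eventually (lt_mem_nhds (show 2 * ε * (1 - ε) - δ < 2 * ε * (1 - ε) by linarith))
  have hev2 : ∀ᶠ n : ℕ in atTop, 1 ≤ ε * n := by
    have : Tendsto (fun n : ℕ => ε * (n : ℝ)) atTop atTop :=
      Tendsto.const_mul_atTop hε tendsto_natCast_atTop_atTop
    exact this.eventually_ge_atTop 1
  obtain ⟨N, hN⟩ := eventually_atTop.mp (hev.and (hev2.and (eventually_gt_atTop 0)))
  refine ⟨N, fun n hn => ⟨⌊ε * n⌋₊ - 1, ?_⟩⟩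
  obtain ⟨h1, h2, h3⟩ := hN n hn
  have hn0 : (0:ℝ) < n := by exact_mod_cast h3
  set l : ℕ := ⌊ε * n⌋₊ with hl
  have hl1 : 1 ≤ l := by
    rw [hl]
    exact Nat.le_floor (by exact_mod_cast h2)
  have hln : l ≤ n := by
    have : (l : ℝ) ≤ n := (Nat.floor_le (by positivity)).trans (by nlinarith)
    exact_mod_cast this
  have hle : (l : ℝ) ≤ ε * n := Nat.floor_le (by positivity)
  set m : ℕ := l - 1 with hmd
  have hS := star_sum (n := n) (m := m) (by omega)
    (fun k => if (1 - ε) * (n : ℝ) ≤ (k : ℝ) then (1:ℝ) else 0)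
    (fun k => by split_ifs <;> norm_num) (fun k hk => by
      by_cases h4 : (1 - ε) * (n : ℝ) ≤ ((n - m - 1 : ℕ) : ℝ)
      · have h5 : (1 - ε) * (n : ℝ) ≤ (k : ℝ) := h4.trans (by exact_mod_cast hk)
        simp [h4, h5]
      · simp only [h4, if_false]
        split_ifs <;> norm_num)
  have e2 : (1 - ε) * (n : ℝ) ≤ ((n - m - 1 : ℕ) : ℝ) := by
    have : n - m - 1 = n - l := by omega
    rw [this, Nat.cast_sub hln]
    linarith
  simp only [e2, if_true, mul_one] at hS
  have e3 : ((univ.filter fun q : Fin n × Fin n => (1 - ε) * (n : ℝ) ≤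
      ((univ.filter fun z => ({q.1, q.2, z} : Finset (Fin n)) ∈ star n m).card : ℝ)).card : ℝ) =
      ∑ x : Fin n, ∑ y : Fin n, (if (1 - ε) * (n : ℝ) ≤
        ((univ.filter fun z => ({x, y, z} : Finset (Fin n)) ∈ star n m).card : ℝ)
          then (1:ℝ) else 0) := by
    rw [Finset.card_filter, Fintype.sum_prod_type]
    push_cast
    rfl
  rw [e3]
  refine le_trans ?_ hS
  have e4 : ((n - m : ℕ) : ℝ) = n - l + 1 := by
    rw [Nat.cast_sub (by omega), hmd, Nat.cast_sub hl1]
    simp
    ring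
  have e5 : (m : ℝ) = l - 1 := by
    rw [hmd, Nat.cast_sub hl1]
    simp
  rw [e4, e5]
  have e6 : (2 * ((l : ℝ) / n - 1 / n) * (1 - (l : ℝ) / n)) * (n : ℝ) ^ 2 =
      2 * ((l : ℝ) - 1) * (n - l) := by
    field_simp
  have h6 : (2 * ε * (1 - ε) - δ) * (n : ℝ) ^ 2 ≤ 2 * ((l : ℝ) - 1) * (n - l) := by
    rw [← e6]
    exact mul_le_mul_of_nonneg_right h1.le (by positivity)
  have h7 : (1:ℝ) ≤ l := by exact_mod_cast hl1
  nlinarith

end Pool.Agent.V11262.K4
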