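import Mathlib

/-!
# Pairs of large codegree in `K_4^3`-free 3-graphs

`E x y z` is a symmetric ternary relation without complete quadruples. `cd x y` is the number of the
`z` with `E x y z`.
-/

set_option autoImplicit false
open Finset
open scoped Classical

namespace Pool.Agent.V11262.K4

variable {V : Type} [Fintype V]

/-- codegree -/
noncomputable def cd (E : V → V → V → Prop) (x y : V) : ℕ := (univ.filter fun z => E x y z).card

/-- indicator of a non-edge -/
noncomputable def ne (E : V → V → V → Prop) (x y z : V) : ℝ := if E x y z then 0 else 1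

theorem ne_nonneg (E : V → V → V → Prop) (x y z : V) : 0 ≤ ne E x y z := by
  unfold ne; split_ifs <;> norm_num

theorem cd_le (E : V → V → V → Prop) (x y : V) : (cd E x y : ℝ) ≤ Fintype.card V := by
  unfold cd
  exact_mod_cast Finset.card_le_univ _

theorem sum_ne (E : V → V → V → Prop) (x y : V) :
    ∑ z, ne E x y z = (Fintype.card V : ℝ) - cd E x y := by
  have h : (∑ z, ne E x y z) + cd E x y = Fintype.card V := by
    unfold ne cd
    rw [Finset.card_filter]
    push_cast
    rw [← Finset.sum_add_distrib]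
    have : ∀ z ∈ (univ : Finset V), ((if E x y z then (0:ℝ) else 1) + (if E x y z then (1:ℝ) else 0)) = 1 := by
      intro z _
      split_ifs <;> norm_num
    rw [Finset.sum_congr rfl this]
    simp
  linarith

/-- no complete quadruple -/
def Free (E : V → V → V → Prop) : Prop :=
  ∀ x y z w, E x y z → E x y w → E x z w → E y z w → False

/-- symmetry -/
structure Sym (E : V → V → V → Prop) : Prop where
  a : ∀ x y z, E x y z → E y x z
  b : ∀ x y z, E x y z → E x z y

theorem Sym.rot {E : V → V → V → Prop} (h : Sym E) {x y z : V} (e : E x y z) : E z x y :=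
  h.a _ _ _ (h.b _ _ _ e)

theorem cd_comm {E : V → V → V → Prop} (h : Sym E) (x y : V) : cd E x y = cd E y x := by
  unfold cd
  congr 1
  ext z
  simp only [mem_filter, mem_univ, true_and]
  exact ⟨h.a _ _ _, h.a _ _ _⟩

/-- the four-point inequality -/
theorem four {E : V → V → V → Prop} (hs : Sym E) (hf : Free E) (W : V → V → ℝ)
    (hW0 : ∀ x y, 0 ≤ W x y) (hWs : ∀ x y, W x y = W y x) {U : ℝ} (hU : ∀ x, ∑ y, W x y ≤ U) :
    (∑ x, ∑ y, W x y) ^ 2 ≤
      4 * U * ∑ x, ∑ y, W x y * ((Fintype.card V : ℝ) - cd E x y) := by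
  -- the basic sum
  have key : ∀ p q : V × V, W p.1 p.2 * W q.1 q.2 ≤
      W p.1 p.2 * W q.1 q.2 * ne E p.1 p.2 q.1 + W p.1 p.2 * W q.1 q.2 * ne E p.1 p.2 q.2 +
      (W p.1 p.2 * W q.1 q.2 * ne E q.1 q.2 p.1 + W p.1 p.2 * W q.1 q.2 * ne E q.1 q.2 p.2) := by
    intro p q
    have h1 : (1:ℝ) ≤ ne E p.1 p.2 q.1 + ne E p.1 p.2 q.2 + (ne E q.1 q.2 p.1 + ne E q.1 q.2 p.2) := by
      have n1 := ne_nonneg E p.1 p.2 q.1
      have n2 := ne_nonneg E p.1 p.2 q.2
      have n3 := ne_nonneg E q.1 q.2 p.1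
      have n4 := ne_nonneg E q.1 q.2 p.2
      by_cases e1 : E p.1 p.2 q.1
      · by_cases e2 : E p.1 p.2 q.2
        · by_cases e3 : E q.1 q.2 p.1
          · by_cases e4 : E q.1 q.2 p.2
            · exact (hf p.1 p.2 q.1 q.2 e1 e2 (hs.rot e3) (hs.rot e4)).elim
            · have : ne E q.1 q.2 p.2 = 1 := by simp [ne, e4]
              linarith
          · have : ne E q.1 q.2 p.1 = 1 := by simp [ne, e3]
            linarith
        · have : ne E p.1 p.2 q.2 = 1 := by simp [ne, e2]
          linarith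
      · have : ne E p.1 p.2 q.1 = 1 := by simp [ne, e1]
        linarith
    have h2 : 0 ≤ W p.1 p.2 * W q.1 q.2 := mul_nonneg (hW0 _ _) (hW0 _ _)
    nlinarith
  have hL : (∑ x, ∑ y, W x y) = ∑ p : V × V, W p.1 p.2 := by
    rw [Fintype.sum_prod_type]
  set S : ℝ := ∑ p : V × V, ∑ q : V × V, W p.1 p.2 * W q.1 q.2 * ne E p.1 p.2 q.1 with hS
  have s2 : ∑ p : V × V, ∑ q : V × V, W p.1 p.2 * W q.1 q.2 * ne E p.1 p.2 q.2 = S := by
    rw [hS]
    refine Finset.sum_congr rfl fun p _ => ?_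
    refine Fintype.sum_equiv (Equiv.prodComm V V) _ _ fun q => ?_
    simp only [Equiv.prodComm_apply, Prod.fst_swap, Prod.snd_swap]
    rw [hWs q.1 q.2]
  have s3 : ∑ p : V × V, ∑ q : V × V, W p.1 p.2 * W q.1 q.2 * ne E q.1 q.2 p.1 = S := by
    rw [hS, Finset.sum_comm]
    refine Finset.sum_congr rfl fun p _ => Finset.sum_congr rfl fun q _ => ?_
    ring
  have s4 : ∑ p : V × V, ∑ q : V × V, W p.1 p.2 * W q.1 q.2 * ne E q.1 q.2 p.2 = S := by
    rw [← s2, Finset.sum_comm]
    refine Finset.sum_congr rfl fun p _ => Finset.sum_congr rfl fun q _ => ?_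
    ring
  have h4 : (∑ x, ∑ y, W x y) ^ 2 ≤ 4 * S := by
    rw [hL, sq, Finset.sum_mul_sum]
    calc ∑ p : V × V, ∑ q : V × V, W p.1 p.2 * W q.1 q.2
        ≤ ∑ p : V × V, ∑ q : V × V, (W p.1 p.2 * W q.1 q.2 * ne E p.1 p.2 q.1 +
            W p.1 p.2 * W q.1 q.2 * ne E p.1 p.2 q.2 +
            (W p.1 p.2 * W q.1 q.2 * ne E q.1 q.2 p.1 +
              W p.1 p.2 * W q.1 q.2 * ne E q.1 q.2 p.2)) :=
          Finset.sum_le_sum fun p _ => Finset.sum_le_sum fun q _ => key p q
      _ = 4 * S := by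
          simp only [Finset.sum_add_distrib]
          rw [s2, s3, s4, ← hS]
          ring
  have h5 : S ≤ U * ∑ x, ∑ y, W x y * ((Fintype.card V : ℝ) - cd E x y) := by
    rw [hS]
    have e1 : ∀ p : V × V, ∑ q : V × V, W p.1 p.2 * W q.1 q.2 * ne E p.1 p.2 q.1 ≤
        U * (W p.1 p.2 * ((Fintype.card V : ℝ) - cd E p.1 p.2)) := by
      intro p
      rw [Fintype.sum_prod_type]
      have e2 : ∀ z : V, ∑ w, W p.1 p.2 * W z w * ne E p.1 p.2 z ≤
          W p.1 p.2 * ne E p.1 p.2 z * U := by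
        intro z
        have : ∑ w, W p.1 p.2 * W z w * ne E p.1 p.2 z =
            W p.1 p.2 * ne E p.1 p.2 z * ∑ w, W z w := by
          rw [Finset.mul_sum]
          refine Finset.sum_congr rfl fun w _ => ?_
          ring
        rw [this]
        exact mul_le_mul_of_nonneg_left (hU z) (mul_nonneg (hW0 _ _) (ne_nonneg _ _ _ _))
      refine (Finset.sum_le_sum fun z _ => e2 z).trans ?_
      rw [← Finset.sum_mul, ← Finset.mul_sum, sum_ne]
      apply le_of_eq
      ring
    refine (Finset.sum_le_sum fun p _ => e1 p).trans ?_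
    rw [← Finset.mul_sum, Fintype.sum_prod_type]
  nlinarith

/-- from the four-point inequality: a bound for the weight -/
theorem quad {L a b : ℝ} (hL : 0 ≤ L) (ha : 0 ≤ a) (hb : 0 ≤ b) (h : L ^ 2 ≤ a * L + b ^ 2) :
    L ≤ a + b := by
  by_contra hc
  push Not at hc
  nlinarith [mul_nonneg hL ha, mul_nonneg hL hb]

end Pool.Agent.V11262.K4
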