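import Pool.Agent.V11262.K4.Core

/-!
# Pairs of large codegree in `K_4^3`-free 3-graphs: the main inequality
-/

set_option autoImplicit false
open Finset
open scoped Classical

namespace Pool.Agent.V11262.K4

variable {V : Type} [Fintype V]

/-- bound of a weight through the largest degree -/
theorem weight {E : V → V → V → Prop} (hs : Sym E) (hf : Free E) (W : V → V → ℝ)
    (hW0 : ∀ x y, 0 ≤ W x y) (hWs : ∀ x y, W x y = W y x) {θ τ η : ℝ} (hθ : 0 ≤ θ) (hτ : 0 ≤ τ)
    (hη : 0 ≤ η) (hU : ∀ x, ∑ y, W x y ≤ θ * Fintype.card V)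
    (hW : ∀ x y, W x y * ((Fintype.card V : ℝ) - cd E x y) ≤
      Fintype.card V * (τ * W x y + η)) :
    ∑ x, ∑ y, W x y ≤ (4 * θ * τ + 2 * √(θ * η)) * (Fintype.card V : ℝ) ^ 2 := by
  set N : ℝ := (Fintype.card V : ℝ) with hN
  have hN0 : 0 ≤ N := by rw [hN]; positivity
  set L : ℝ := ∑ x, ∑ y, W x y with hL
  have hL0 : 0 ≤ L := Finset.sum_nonneg fun x _ => Finset.sum_nonneg fun y _ => hW0 x y
  have h1 := four hs hf W hW0 hWs hU
  have h2 : ∑ x, ∑ y, W x y * ((Fintype.card V : ℝ) - cd E x y) ≤ N * (τ * L + η * N ^ 2) := by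
    calc ∑ x, ∑ y, W x y * ((Fintype.card V : ℝ) - cd E x y)
        ≤ ∑ x : V, ∑ y : V, N * (τ * W x y + η) :=
          Finset.sum_le_sum fun x _ => Finset.sum_le_sum fun y _ => hW x y
      _ = N * (τ * L + η * N ^ 2) := by
          simp only [← Finset.mul_sum, Finset.sum_add_distrib, Finset.sum_const, card_univ,
            nsmul_eq_mul, hL, ← hN]
          ring
  have h3 : L ^ 2 ≤ (4 * θ * τ * N ^ 2) * L + (2 * √(θ * η) * N ^ 2) ^ 2 := by
    have e1 : (2 * √(θ * η) * N ^ 2) ^ 2 = 4 * (θ * η) * N ^ 4 := by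
      rw [mul_pow, mul_pow, Real.sq_sqrt (mul_nonneg hθ hη)]
      ring
    rw [e1]
    calc L ^ 2 ≤ 4 * (θ * N) * (N * (τ * L + η * N ^ 2)) :=
          h1.trans (mul_le_mul_of_nonneg_left h2 (by positivity))
      _ = _ := by ring
  have h4 := quad hL0 (by positivity) (by positivity) h3
  calc L ≤ _ := h4
    _ = _ := by ring

/-- one row of the weight between `V` and `B` -/
theorem row {N : ℝ} (hN : 0 < N) {φ : ℝ → ℝ} (hmono : MonotoneOn φ (Set.Icc 0 1))
    (hφ1 : ∀ t ∈ Set.Icc (0:ℝ) 1, φ t ≤ 1) {M ρ : ℝ} (hρ : 0 < ρ)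
    (hM : ∀ k ∈ Set.Icc (0:ℝ) 1, k * φ (1 - k) ≤ M) (F : Finset V) (hF : (F.card : ℝ) ≤ N)
    (d r : V → ℝ) (hd0 : ∀ b, 0 ≤ d b) (hd1 : ∀ b, d b ≤ 1) (hr : ∀ b, 0 ≤ r b)
    (h : ∀ b ∈ F, (F.card : ℝ) - r b ≤ N * (1 - d b)) :
    ∑ b ∈ F, φ (d b) ≤ N * (M + ρ) + (∑ b ∈ F, r b) / (ρ * N) := by
  have hM0 : 0 ≤ M := by
    have := hM 0 ⟨le_refl _, zero_le_one⟩
    simpa using this
  set κ : ℝ := F.card / N with hκ
  have hκ0 : 0 ≤ κ := by rw [hκ]; positivity
  have hκ1 : κ ≤ 1 := by rw [hκ, div_le_one hN]; exact hF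
  have hcard : (F.card : ℝ) = N * κ := by rw [hκ]; field_simp
  -- pointwise
  obtain ⟨m, hm0, hm1, hm2⟩ : ∃ m : ℝ, 0 ≤ m ∧ κ * m ≤ M + ρ ∧
      ∀ b ∈ F, φ (d b) ≤ m + r b / (ρ * N) := by
    by_cases hk : κ < ρ
    · refine ⟨1, zero_le_one, by linarith, fun b _ => ?_⟩
      have h1 := hφ1 (d b) ⟨hd0 b, hd1 b⟩
      have h2 : 0 ≤ r b / (ρ * N) := div_nonneg (hr b) (by positivity)
      linarith
    · push Not at hk
      have hin : (1 - (κ - ρ)) ∈ Set.Icc (0:ℝ) 1 := ⟨by linarith, by linarith⟩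
      have hk' : κ - ρ ∈ Set.Icc (0:ℝ) 1 := ⟨by linarith, by linarith⟩
      by_cases hneg : 0 ≤ φ (1 - (κ - ρ))
      · refine ⟨φ (1 - (κ - ρ)), hneg, ?_, fun b hb => ?_⟩
        · have h1 := hM _ hk'
          have h2 := hφ1 _ hin
          nlinarith
        · by_cases hrb : r b ≤ ρ * N
          · have h1 := h b hb
            have h2 : κ - ρ ≤ 1 - d b := by
              have h3 : N * (κ - ρ) ≤ N * (1 - d b) := by
                calc N * (κ - ρ) = N * κ - ρ * N := by ring
                  _ ≤ (F.card : ℝ) - r b := by rw [hcard]; linarith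
                  _ ≤ _ := h1
              exact le_of_mul_le_mul_left h3 hN
            have h4 : φ (d b) ≤ φ (1 - (κ - ρ)) := hmono ⟨hd0 b, hd1 b⟩ hin (by linarith)
            have h5 : 0 ≤ r b / (ρ * N) := div_nonneg (hr b) (by positivity)
            linarith
          · push Not at hrb
            have h1 := hφ1 (d b) ⟨hd0 b, hd1 b⟩
            have h2 : 1 ≤ r b / (ρ * N) := by
              rw [le_div_iff₀ (by positivity)]
              linarith
            linarith
      · refine ⟨0, le_refl _, by linarith [mul_zero κ], fun b hb => ?_⟩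
        by_cases hrb : r b ≤ ρ * N
        · have h1 := h b hb
          have h2 : κ - ρ ≤ 1 - d b := by
            have h3 : N * (κ - ρ) ≤ N * (1 - d b) := by
              calc N * (κ - ρ) = N * κ - ρ * N := by ring
                _ ≤ (F.card : ℝ) - r b := by rw [hcard]; linarith
                _ ≤ _ := h1
            exact le_of_mul_le_mul_left h3 hN
          have h4 : φ (d b) ≤ φ (1 - (κ - ρ)) := hmono ⟨hd0 b, hd1 b⟩ hin (by linarith)
          have h5 : 0 ≤ r b / (ρ * N) := div_nonneg (hr b) (by positivity)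
          linarith
        · push Not at hrb
          have h1 := hφ1 (d b) ⟨hd0 b, hd1 b⟩
          have h2 : 1 ≤ r b / (ρ * N) := by
            rw [le_div_iff₀ (by positivity)]
            linarith
          linarith
  calc ∑ b ∈ F, φ (d b) ≤ ∑ b ∈ F, (m + r b / (ρ * N)) := Finset.sum_le_sum hm2
    _ = N * (κ * m) + (∑ b ∈ F, r b) / (ρ * N) := by
        rw [Finset.sum_add_distrib, Finset.sum_const, nsmul_eq_mul, Finset.sum_div, hcard]
        ring
    _ ≤ _ := by
        have := mul_le_mul_of_nonneg_left hm1 hN.le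
        linarith

/-- the heavy pairs -/
def Hv (E : V → V → V → Prop) (τ : ℝ) (x y : V) : Prop :=
  (Fintype.card V : ℝ) - cd E x y ≤ τ * Fintype.card V

/-- two heavy pairs in an edge: the third pair is light -/
theorem light {E : V → V → V → Prop} (hs : Sym E) (hf : Free E) {τ : ℝ} {a b c : V}
    (h1 : Hv E τ a b) (h2 : Hv E τ a c) (h3 : E a b c) :
    (cd E b c : ℝ) ≤ 2 * τ * Fintype.card V := by
  have h4 : (cd E b c : ℝ) ≤ (∑ z, ne E a b z) + ∑ z, ne E a c z := by
    unfold cd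
    rw [Finset.card_filter]
    push_cast
    rw [← Finset.sum_add_distrib]
    refine Finset.sum_le_sum fun z _ => ?_
    by_cases e : E b c z
    · by_cases e1 : E a b z
      · by_cases e2 : E a c z
        · exact (hf a b c z h3 e1 e2 e).elim
        · have := ne_nonneg E a b z
          simp only [e, if_true]
          have h5 : ne E a c z = 1 := by simp [ne, e2]
          linarith
      · have := ne_nonneg E a c z
        simp only [e, if_true]
        have h5 : ne E a b z = 1 := by simp [ne, e1]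
        linarith
    · simp only [e, if_false]
      exact add_nonneg (ne_nonneg _ _ _ _) (ne_nonneg _ _ _ _)
  rw [sum_ne, sum_ne] at h4
  unfold Hv at h1 h2
  linarith

/-- the weight between `V` and `B` -/
theorem cross {E : V → V → V → Prop} (hs : Sym E) (hf : Free E) (hV : 0 < Fintype.card V)
    {φ : ℝ → ℝ} (hmono : MonotoneOn φ (Set.Icc 0 1)) (hφ0 : ∀ t ∈ Set.Icc (0:ℝ) 1, 0 ≤ φ t)
    (hφ1 : ∀ t ∈ Set.Icc (0:ℝ) 1, φ t ≤ 1) {M ρ τ η : ℝ} (hρ : 0 < ρ) (hτ : 0 ≤ τ) (hη : 0 ≤ η)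
    (hφτ : ∀ t ∈ Set.Icc (0:ℝ) 1, t < 1 - τ → φ t ≤ η)
    (hM : ∀ k ∈ Set.Icc (0:ℝ) 1, k * φ (1 - k) ≤ M) (B : Finset V) :
    ∑ a, ∑ b ∈ B, φ (cd E a b / Fintype.card V) ≤
      (η + M + ρ) * (Fintype.card V : ℝ) ^ 2 + 2 * τ * (B.card : ℝ) ^ 2 / ρ := by
  set N : ℝ := (Fintype.card V : ℝ) with hN
  have hN0 : 0 < N := by rw [hN]; exact_mod_cast hV
  have hd0 : ∀ a b : V, 0 ≤ (cd E a b : ℝ) / N := fun a b => by positivity
  have hd1 : ∀ a b : V, (cd E a b : ℝ) / N ≤ 1 := fun a b => by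
    rw [div_le_one hN0]; exact cd_le E a b
  let r : V → V → ℝ := fun a b => ∑ c ∈ B, if Hv E τ a c ∧ E a b c then (1:ℝ) else 0
  have hr0 : ∀ a b, 0 ≤ r a b := fun a b => Finset.sum_nonneg fun c _ => by split_ifs <;> norm_num
  have hrow : ∀ a, ∑ b ∈ B, φ (cd E a b / N) ≤
      η * N + N * (M + ρ) + (∑ b ∈ B.filter (Hv E τ a), r a b) / (ρ * N) := by
    intro a
    rw [← Finset.sum_filter_add_sum_filter_not B (Hv E τ a)]
    have h1 : ∑ b ∈ B.filter (Hv E τ a), φ (cd E a b / N) ≤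
        N * (M + ρ) + (∑ b ∈ B.filter (Hv E τ a), r a b) / (ρ * N) := by
      apply row hN0 hmono hφ1 hρ hM (B.filter (Hv E τ a)) _ (fun b => (cd E a b : ℝ) / N)
        (fun b => r a b) (hd0 a) (hd1 a) (hr0 a)
      · intro b hb
        have e1 : N * (1 - (cd E a b : ℝ) / N) = N - cd E a b := by field_simp
        rw [e1, ← sum_ne]
        have e2 : ((B.filter (Hv E τ a)).card : ℝ) - r a b ≤
            ∑ c ∈ B, (if Hv E τ a c ∧ ¬ E a b c then (1:ℝ) else 0) := by
          rw [Finset.card_filter]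
          push_cast
          rw [sub_le_iff_le_add, ← Finset.sum_add_distrib]
          refine Finset.sum_le_sum fun c _ => ?_
          by_cases c1 : Hv E τ a c <;> by_cases c2 : E a b c <;> simp [c1, c2]
        refine e2.trans ?_
        calc ∑ c ∈ B, (if Hv E τ a c ∧ ¬ E a b c then (1:ℝ) else 0)
            ≤ ∑ c ∈ B, ne E a b c := by
              refine Finset.sum_le_sum fun c _ => ?_
              unfold ne
              by_cases c1 : Hv E τ a c <;> by_cases c2 : E a b c <;> simp [c1, c2]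
          _ ≤ ∑ c, ne E a b c :=
              Finset.sum_le_sum_of_subset_of_nonneg (Finset.subset_univ _)
                fun c _ _ => ne_nonneg _ _ _ _
      · rw [hN]
        exact_mod_cast Finset.card_le_univ _
    have h2 : ∑ b ∈ B.filter (fun b => ¬ Hv E τ a b), φ (cd E a b / N) ≤ η * N := by
      calc ∑ b ∈ B.filter (fun b => ¬ Hv E τ a b), φ (cd E a b / N)
          ≤ ∑ b ∈ B.filter (fun b => ¬ Hv E τ a b), η := by
            refine Finset.sum_le_sum fun b hb => ?_
            have hb2 := (Finset.mem_filter.mp hb).2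
            apply hφτ _ ⟨hd0 a b, hd1 a b⟩
            unfold Hv at hb2
            push Not at hb2
            rw [div_lt_iff₀ hN0]
            rw [← hN] at hb2
            linarith
        _ = (B.filter (fun b => ¬ Hv E τ a b)).card * η := by
            rw [Finset.sum_const, nsmul_eq_mul]
        _ ≤ N * η := by
            apply mul_le_mul_of_nonneg_right _ hη
            rw [hN]
            exact_mod_cast Finset.card_le_univ _
        _ = η * N := mul_comm _ _
    linarith
  have hR : ∑ a, ∑ b ∈ B.filter (Hv E τ a), r a b ≤ 2 * τ * N * (B.card : ℝ) ^ 2 := by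
    have e1 : ∀ a, ∑ b ∈ B.filter (Hv E τ a), r a b =
        ∑ b ∈ B, ∑ c ∈ B, if Hv E τ a b ∧ Hv E τ a c ∧ E a b c then (1:ℝ) else 0 := by
      intro a
      rw [Finset.sum_filter]
      refine Finset.sum_congr rfl fun b _ => ?_
      by_cases c1 : Hv E τ a b
      · simp only [c1, if_true, true_and, r]
      · simp [c1]
    simp only [e1]
    rw [Finset.sum_comm]
    calc ∑ b ∈ B, ∑ a, ∑ c ∈ B, (if Hv E τ a b ∧ Hv E τ a c ∧ E a b c then (1:ℝ) else 0)
        = ∑ b ∈ B, ∑ c ∈ B, ∑ a, (if Hv E τ a b ∧ Hv E τ a c ∧ E a b c then (1:ℝ) else 0) := by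
          refine Finset.sum_congr rfl fun b _ => ?_
          rw [Finset.sum_comm]
      _ ≤ ∑ b ∈ B, ∑ c ∈ B, 2 * τ * N := by
          refine Finset.sum_le_sum fun b _ => Finset.sum_le_sum fun c _ => ?_
          by_cases hex : ∃ a, Hv E τ a b ∧ Hv E τ a c ∧ E a b c
          · obtain ⟨a, ha1, ha2, ha3⟩ := hex
            have h5 := light hs hf ha1 ha2 ha3
            refine le_trans ?_ h5
            unfold cd
            rw [Finset.card_filter]
            push_cast
            refine Finset.sum_le_sum fun z _ => ?_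
            by_cases c1 : Hv E τ z b ∧ Hv E τ z c ∧ E z b c
            · have : E b c z := hs.b _ _ _ (hs.a _ _ _ c1.2.2)
              simp [c1, this]
            · simp only [c1, if_false]
              split_ifs <;> norm_num
          · push Not at hex
            have : ∀ a ∈ (univ : Finset V),
                (if Hv E τ a b ∧ Hv E τ a c ∧ E a b c then (1:ℝ) else 0) = 0 := by
              intro a _
              rw [if_neg]
              rintro ⟨h1, h2, h3⟩
              exact hex a h1 h2 h3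
            rw [Finset.sum_congr rfl this]
            simp only [Finset.sum_const_zero]
            positivity
      _ = 2 * τ * N * (B.card : ℝ) ^ 2 := by
          simp only [Finset.sum_const, nsmul_eq_mul]
          ring
  calc ∑ a, ∑ b ∈ B, φ (cd E a b / N)
      ≤ ∑ a : V, (η * N + N * (M + ρ) + (∑ b ∈ B.filter (Hv E τ a), r a b) / (ρ * N)) :=
        Finset.sum_le_sum fun a _ => hrow a
    _ = (η + M + ρ) * N ^ 2 + (∑ a, ∑ b ∈ B.filter (Hv E τ a), r a b) / (ρ * N) := by
        rw [Finset.sum_add_distrib, Finset.sum_const, card_univ, nsmul_eq_mul, ← hN,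
          Finset.sum_div]
        ring
    _ ≤ (η + M + ρ) * N ^ 2 + (2 * τ * N * (B.card : ℝ) ^ 2) / (ρ * N) := by
        gcongr
    _ = _ := by
        field_simp

/-- **The main inequality.** -/
theorem main {E : V → V → V → Prop} (hs : Sym E) (hf : Free E) (hV : 0 < Fintype.card V)
    {φ : ℝ → ℝ} (hmono : MonotoneOn φ (Set.Icc 0 1)) (hφ0 : ∀ t ∈ Set.Icc (0:ℝ) 1, 0 ≤ φ t)
    (hφ1 : ∀ t ∈ Set.Icc (0:ℝ) 1, φ t ≤ 1) {M ρ τ η θ : ℝ} (hρ : 0 < ρ) (hτ : 0 ≤ τ)
    (hη : 0 ≤ η) (hθ : 0 < θ)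
    (hφτ : ∀ t ∈ Set.Icc (0:ℝ) 1, t < 1 - τ → φ t ≤ η)
    (hM : ∀ k ∈ Set.Icc (0:ℝ) 1, k * φ (1 - k) ≤ M) :
    ∑ x, ∑ y, φ (cd E x y / Fintype.card V) ≤
      (2 * M + 2 * η + 2 * ρ + 4 * τ * ((4 * τ + 2 * √η) / θ) ^ 2 / ρ + 4 * θ * τ +
        2 * √(θ * η)) * (Fintype.card V : ℝ) ^ 2 := by
  set N : ℝ := (Fintype.card V : ℝ) with hN
  have hN0 : 0 < N := by rw [hN]; exact_mod_cast hV
  have hd0 : ∀ a b : V, 0 ≤ (cd E a b : ℝ) / N := fun a b => by positivity
  have hd1 : ∀ a b : V, (cd E a b : ℝ) / N ≤ 1 := fun a b => by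
    rw [div_le_one hN0]; exact cd_le E a b
  let W : V → V → ℝ := fun x y => φ (cd E x y / N)
  have hW0 : ∀ x y, 0 ≤ W x y := fun x y => hφ0 _ ⟨hd0 x y, hd1 x y⟩
  have hW1 : ∀ x y, W x y ≤ 1 := fun x y => hφ1 _ ⟨hd0 x y, hd1 x y⟩
  have hWs : ∀ x y, W x y = W y x := fun x y => by
    simp only [W]
    rw [cd_comm hs]
  have hWτ : ∀ x y, W x y * (N - cd E x y) ≤ N * (τ * W x y + η) := by
    intro x y
    have e1 : N - cd E x y = N * (1 - (cd E x y : ℝ) / N) := by field_simp
    rw [e1]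
    have h1 := hd0 x y
    have h2 := hd1 x y
    have h3 : W x y * (1 - (cd E x y : ℝ) / N) ≤ τ * W x y + η := by
      by_cases h4 : (cd E x y : ℝ) / N < 1 - τ
      · have h5 : W x y ≤ η := hφτ _ ⟨h1, h2⟩ h4
        have h6 := hW0 x y
        nlinarith [mul_nonneg hτ h6, mul_nonneg h6 h1]
      · push Not at h4
        have h6 := hW0 x y
        nlinarith
    calc W x y * (N * (1 - (cd E x y : ℝ) / N)) = N * (W x y * (1 - (cd E x y : ℝ) / N)) := by ring
      _ ≤ _ := mul_le_mul_of_nonneg_left h3 hN0.le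
  -- all pairs
  have hall : ∑ x, ∑ y, W x y ≤ (4 * τ + 2 * √η) * N ^ 2 := by
    have h := weight hs hf W hW0 hWs (θ := 1) zero_le_one hτ hη (fun x => by
      calc ∑ y, W x y ≤ ∑ y : V, (1:ℝ) := Finset.sum_le_sum fun y _ => hW1 x y
        _ = 1 * Fintype.card V := by simp) hWτ
    simpa using h
  -- the vertices of large weight
  let B : Finset V := univ.filter fun x => θ * N ≤ ∑ y, W x y
  have hB : (B.card : ℝ) ≤ ((4 * τ + 2 * √η) / θ) * N := by
    have h1 : (B.card : ℝ) * (θ * N) ≤ (4 * τ + 2 * √η) * N ^ 2 := by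
      calc (B.card : ℝ) * (θ * N) = ∑ x ∈ B, θ * N := by rw [Finset.sum_const, nsmul_eq_mul]
        _ ≤ ∑ x ∈ B, ∑ y, W x y :=
            Finset.sum_le_sum fun x hx => (Finset.mem_filter.mp hx).2
        _ ≤ ∑ x, ∑ y, W x y :=
            Finset.sum_le_sum_of_subset_of_nonneg (Finset.subset_univ _)
              fun x _ _ => Finset.sum_nonneg fun y _ => hW0 x y
        _ ≤ _ := hall
    rw [div_mul_eq_mul_div, le_div_iff₀ hθ]
    have h2 : ((B.card : ℝ) * θ) * N ≤ ((4 * τ + 2 * √η) * N) * N := by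
      calc _ = (B.card : ℝ) * (θ * N) := by ring
        _ ≤ _ := h1
        _ = _ := by ring
    exact le_of_mul_le_mul_right h2 hN0
  -- the other vertices
  let WA : V → V → ℝ := fun x y => if x ∈ B ∨ y ∈ B then 0 else W x y
  have hWA0 : ∀ x y, 0 ≤ WA x y := fun x y => by
    simp only [WA]; split_ifs <;> [exact le_refl _; exact hW0 x y]
  have hWAW : ∀ x y, WA x y ≤ W x y := fun x y => by
    simp only [WA]; split_ifs <;> [exact hW0 x y; exact le_refl _]
  have hAA : ∑ x, ∑ y, WA x y ≤ (4 * θ * τ + 2 * √(θ * η)) * N ^ 2 := by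
    apply weight hs hf WA hWA0 _ hθ.le hτ hη
    · intro x
      by_cases hx : x ∈ B
      · have : ∀ y ∈ (univ : Finset V), WA x y = 0 := fun y _ => by simp [WA, hx]
        rw [Finset.sum_congr rfl this]
        simp only [Finset.sum_const_zero]
        positivity
      · have h1 : ∑ y, W x y < θ * N := by
          by_contra hc
          push Not at hc
          exact hx (Finset.mem_filter.mpr ⟨Finset.mem_univ _, hc⟩)
        exact (Finset.sum_le_sum fun y _ => hWAW x y).trans h1.le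
    · intro x y
      by_cases hx : x ∈ B ∨ y ∈ B
      · simp only [WA, hx, if_true, zero_mul, mul_zero, zero_add]
        positivity
      · simp only [WA, hx, if_false]
        exact hWτ x y
    · intro x y
      simp only [WA]
      by_cases hx : x ∈ B ∨ y ∈ B
      · rw [if_pos hx, if_pos hx.symm]
      · rw [if_neg hx, if_neg (fun h => hx h.symm), hWs]
  have hX := cross hs hf hV hmono hφ0 hφ1 hρ hτ hη hφτ hM B
  rw [← hN] at hX
  have hsplit : ∑ x, ∑ y, W x y ≤ ∑ x, ∑ y, WA x y + 2 * ∑ a, ∑ b ∈ B, W a b := by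
    have e1 : ∀ x y, W x y ≤ WA x y + (if y ∈ B then W x y else 0) + (if x ∈ B then W x y else 0) := by
      intro x y
      have := hW0 x y
      by_cases hx : x ∈ B <;> by_cases hy : y ∈ B <;> simp [WA, hx, hy, this]
    calc ∑ x, ∑ y, W x y
        ≤ ∑ x, ∑ y, (WA x y + (if y ∈ B then W x y else 0) + (if x ∈ B then W x y else 0)) :=
          Finset.sum_le_sum fun x _ => Finset.sum_le_sum fun y _ => e1 x y
      _ = ∑ x, ∑ y, WA x y + ∑ x, ∑ y, (if y ∈ B then W x y else 0) +
          ∑ x, ∑ y, (if x ∈ B then W x y else 0) := by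
          simp only [Finset.sum_add_distrib]
      _ = ∑ x, ∑ y, WA x y + 2 * ∑ a, ∑ b ∈ B, W a b := by
          have f1 : ∑ x, ∑ y, (if y ∈ B then W x y else 0) = ∑ a, ∑ b ∈ B, W a b := by
            refine Finset.sum_congr rfl fun x _ => ?_
            rw [Finset.sum_ite_mem, Finset.univ_inter]
          have f2 : ∑ x, ∑ y, (if x ∈ B then W x y else 0) = ∑ a, ∑ b ∈ B, W a b := by
            rw [Finset.sum_comm, ← f1]
            refine Finset.sum_congr rfl fun x _ => Finset.sum_congr rfl fun y _ => ?_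
            rw [hWs y x]
          rw [f1, f2]
          ring
  have hB2 : 2 * τ * (B.card : ℝ) ^ 2 / ρ ≤
      2 * τ * (((4 * τ + 2 * √η) / θ) * N) ^ 2 / ρ := by
    gcongr
  calc ∑ x, ∑ y, φ (cd E x y / N) ≤ ∑ x, ∑ y, WA x y + 2 * ∑ a, ∑ b ∈ B, W a b := hsplit
    _ ≤ (4 * θ * τ + 2 * √(θ * η)) * N ^ 2 + 2 * ((η + M + ρ) * N ^ 2 +
        2 * τ * (((4 * τ + 2 * √η) / θ) * N) ^ 2 / ρ) := by
        have := hX.trans (add_le_add_right hB2 _)
        linarith
    _ = _ := by ring

end Pool.Agent.V11262.K4
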