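import Pool.Agent.V11262.K4.Main

/-!
# Powers of the codegrees and pairs of large codegree: upper bounds
-/

set_option autoImplicit false
open Finset
open scoped Classical

namespace Pool.Agent.V11262.K4

variable {V : Type} [Fintype V]

/-- **sums of powers of the codegrees, normalised** -/
theorem upper_p {E : V → V → V → Prop} (hs : Sym E) (hf : Free E) (hV : 0 < Fintype.card V)
    {p : ℝ} (hp : 2 ≤ p) :
    ∑ x, ∑ y, ((cd E x y : ℝ) / Fintype.card V) ^ p ≤
      (2 / (Real.exp 1 * p) + 400 * Real.log p ^ 2 / p ^ (5 / 4 : ℝ)) *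
        (Fintype.card V : ℝ) ^ 2 := by
  have hp0 : 0 < p := by linarith
  set l : ℝ := Real.log p with hl
  have hl2 : 1 / 2 ≤ l := by
    have h1 : Real.log 2 ≤ l := Real.log_le_log (by norm_num) hp
    have h2 := Real.log_two_gt_d9
    linarith
  have hl0 : 0 < l := by linarith
  set s : ℝ := p ^ (1 / 4 : ℝ) with hsd
  have hs1 : 1 ≤ s := Real.one_le_rpow (by linarith) (by norm_num)
  have hs0 : 0 < s := by linarith
  have hs4 : s ^ 4 = p := by
    rw [hsd, ← Real.rpow_natCast, ← Real.rpow_mul hp0.le]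
    norm_num
  have hs5 : p ^ (5 / 4 : ℝ) = s ^ 5 := by
    rw [hsd, ← Real.rpow_natCast, ← Real.rpow_mul hp0.le]
    norm_num
  -- the parameters
  have hη : Real.exp (-(p * (4 * l / p))) = (1 / s ^ 8) ^ 2 := by
    have e1 : p * (4 * l / p) = 4 * l := by field_simp
    rw [e1, hl, show -(4 * Real.log p) = Real.log p * (-4 : ℝ) by ring,
      ← Real.rpow_def_of_pos hp0, Real.rpow_neg hp0.le, ← hs4]
    rw [show ((4 : ℝ)) = ((4 : ℕ) : ℝ) by norm_num, Real.rpow_natCast]
    field_simp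
  have hM : ∀ k ∈ Set.Icc (0:ℝ) 1, k * (1 - k) ^ p ≤ 1 / (Real.exp 1 * p) := by
    intro k hk
    have h1 : (1 - k) ^ p ≤ Real.exp (-(k * p)) := by
      have h2 : 1 - k ≤ Real.exp (-k) := by
        have := Real.add_one_le_exp (-k)
        linarith
      calc (1 - k) ^ p ≤ (Real.exp (-k)) ^ p :=
            Real.rpow_le_rpow (by linarith [hk.2]) h2 hp0.le
        _ = Real.exp (-(k * p)) := by
            rw [← Real.exp_mul]
            ring_nf
    have h3 : (k * p) * Real.exp (-(k * p)) ≤ Real.exp (-1) := by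
      have h4 := Real.add_one_le_exp (k * p - 1)
      have h5 : k * p ≤ Real.exp (k * p - 1) := by linarith
      calc (k * p) * Real.exp (-(k * p)) ≤ Real.exp (k * p - 1) * Real.exp (-(k * p)) :=
            mul_le_mul_of_nonneg_right h5 (Real.exp_pos _).le
        _ = Real.exp (-1) := by
            rw [← Real.exp_add]
            ring_nf
    calc k * (1 - k) ^ p ≤ k * Real.exp (-(k * p)) := mul_le_mul_of_nonneg_left h1 hk.1
      _ = ((k * p) * Real.exp (-(k * p))) / p := by field_simp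
      _ ≤ Real.exp (-1) / p := by gcongr
      _ = 1 / (Real.exp 1 * p) := by
          rw [Real.exp_neg]
          field_simp
  have h := main hs hf hV (φ := fun t => t ^ p) (M := 1 / (Real.exp 1 * p))
    (ρ := 100 * l ^ 2 / s ^ 5) (τ := 4 * l / p) (η := (1 / s ^ 8) ^ 2) (θ := 1 / s)
    (fun x hx y _ hxy => Real.rpow_le_rpow hx.1 hxy hp0.le)
    (fun t ht => Real.rpow_nonneg ht.1 _)
    (fun t ht => Real.rpow_le_one ht.1 ht.2 hp0.le)
    (by positivity) (by positivity) (by positivity) (by positivity)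
    (by
      intro t ht htτ
      rw [← hη]
      have h2 : t ≤ Real.exp (-(4 * l / p)) := by
        have := Real.add_one_le_exp (-(4 * l / p))
        linarith
      calc t ^ p ≤ (Real.exp (-(4 * l / p))) ^ p := Real.rpow_le_rpow ht.1 h2 hp0.le
        _ = Real.exp (-(p * (4 * l / p))) := by
            rw [← Real.exp_mul]
            ring_nf)
    hM
  refine h.trans ?_
  apply mul_le_mul_of_nonneg_right _ (by positivity)
  have hsq : √((1 / s ^ 8) ^ 2) = 1 / s ^ 8 := Real.sqrt_sq (by positivity)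
  rw [hsq, hs5]
  have hsq2 : √(1 / s * (1 / s ^ 8) ^ 2) ≤ 1 / s ^ 8 := by
    rw [Real.sqrt_le_left (by positivity)]
    have : 1 / s ≤ 1 := by
      rw [div_le_one hs0]; exact hs1
    calc 1 / s * (1 / s ^ 8) ^ 2 ≤ 1 * (1 / s ^ 8) ^ 2 := by gcongr
      _ = _ := one_mul _
  set q : ℝ := 1 / s ^ 5 with hq
  have hq0 : 0 < q := by positivity
  have hs8 : 1 / s ^ 8 ≤ q := by
    rw [hq]
    apply one_div_le_one_div_of_le (by positivity)
    exact pow_le_pow_right₀ hs1 (by norm_num)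
  have hs16 : (1 / s ^ 8) ^ 2 ≤ q := by
    have h1 : 1 / s ^ 8 ≤ 1 := by
      rw [div_le_one (by positivity)]
      exact one_le_pow₀ hs1
    have h2 : 0 < 1 / s ^ 8 := by positivity
    nlinarith
  have hs84 : 1 / s ^ 8 ≤ 1 / s ^ 4 := by
    apply one_div_le_one_div_of_le (by positivity)
    exact pow_le_pow_right₀ hs1 (by norm_num)
  have t1 : 2 * (1 / (Real.exp 1 * p)) = 2 / (Real.exp 1 * p) := by ring
  have hl4 : 1 ≤ 4 * l ^ 2 := by nlinarith
  have hq4 : q ≤ 4 * l ^ 2 * q := by nlinarith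
  have t2 : 2 * (1 / s ^ 8) ^ 2 ≤ 8 * l ^ 2 * q := by linarith
  have t3 : 2 * (100 * l ^ 2 / s ^ 5) = 200 * l ^ 2 * q := by
    rw [hq]; ring
  have t4 : 4 * (4 * l / p) * ((4 * (4 * l / p) + 2 * (1 / s ^ 8)) / (1 / s)) ^ 2 /
      (100 * l ^ 2 / s ^ 5) ≤ 128 * l ^ 2 * q := by
    have e1 : 4 * (4 * l / p) + 2 * (1 / s ^ 8) ≤ 20 * l / s ^ 4 := by
      rw [hs4] at *
      have : 2 * (1 / s ^ 8) ≤ 4 * l / p := by
        calc 2 * (1 / s ^ 8) ≤ 2 * (1 / p) := by linarith
          _ ≤ 4 * l / p := by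
              rw [mul_one_div]
              gcongr
              linarith
      calc 4 * (4 * l / p) + 2 * (1 / s ^ 8) ≤ 4 * (4 * l / p) + 4 * l / p := by linarith
        _ = 20 * l / p := by ring
    have e2 : (4 * (4 * l / p) + 2 * (1 / s ^ 8)) / (1 / s) ≤ 20 * l / s ^ 3 := by
      rw [div_div_eq_mul_div, div_one]
      calc (4 * (4 * l / p) + 2 * (1 / s ^ 8)) * s ≤ (20 * l / s ^ 4) * s := by gcongr
        _ = 20 * l / s ^ 3 := by field_simp
    have e3 : 0 ≤ (4 * (4 * l / p) + 2 * (1 / s ^ 8)) / (1 / s) := by positivity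
    calc 4 * (4 * l / p) * ((4 * (4 * l / p) + 2 * (1 / s ^ 8)) / (1 / s)) ^ 2 /
          (100 * l ^ 2 / s ^ 5)
        ≤ 4 * (4 * l / p) * (20 * l / s ^ 3) ^ 2 / (100 * l ^ 2 / s ^ 5) := by gcongr
      _ = 64 * l * q := by
          rw [hq, ← hs4]
          field_simp
          ring
      _ ≤ 128 * l ^ 2 * q := by nlinarith [mul_pos hl0 hq0]
  have t5 : 4 * (1 / s) * (4 * l / p) ≤ 32 * l ^ 2 * q := by
    calc 4 * (1 / s) * (4 * l / p) = 16 * l * q := by
          rw [hq, ← hs4]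
          field_simp
          ring
      _ ≤ 32 * l ^ 2 * q := by nlinarith [mul_pos hl0 hq0]
  have t6 : 2 * √(1 / s * (1 / s ^ 8) ^ 2) ≤ 8 * l ^ 2 * q := by linarith
  have t7 : 400 * l ^ 2 / s ^ 5 = 400 * l ^ 2 * q := by
    rw [hq]; ring
  rw [t7]
  have t8 : 0 ≤ l ^ 2 * q := by positivity
  linarith

/-- **pairs of large codegree** -/
theorem upper_e {E : V → V → V → Prop} (hs : Sym E) (hf : Free E) (hV : 0 < Fintype.card V)
    {ε : ℝ} (hε : 0 < ε) (hε1 : ε ≤ 1) :
    ∑ x, ∑ y, (if 1 - ε ≤ (cd E x y : ℝ) / Fintype.card V then (1:ℝ) else 0) ≤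
      (2 * ε + 27 * ε ^ (5 / 4 : ℝ)) * (Fintype.card V : ℝ) ^ 2 := by
  set s : ℝ := ε ^ (1 / 4 : ℝ) with hsd
  have hs0 : 0 < s := Real.rpow_pos_of_pos hε _
  have hs4 : s ^ 4 = ε := by
    rw [hsd, ← Real.rpow_natCast, ← Real.rpow_mul hε.le]
    norm_num
  have hs5 : ε ^ (5 / 4 : ℝ) = s ^ 5 := by
    rw [hsd, ← Real.rpow_natCast, ← Real.rpow_mul hε.le]
    norm_num
  have h := main hs hf hV (φ := fun t => if 1 - ε ≤ t then (1:ℝ) else 0) (M := ε)
    (ρ := 6 * s ^ 5) (τ := ε) (η := 0) (θ := s)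
    (fun x _ y _ hxy => by
      by_cases h1 : 1 - ε ≤ x
      · have h2 : 1 - ε ≤ y := h1.trans hxy
        simp [h1, h2]
      · simp only [h1, if_false]
        split_ifs <;> norm_num)
    (fun t _ => by split_ifs <;> norm_num)
    (fun t _ => by split_ifs <;> norm_num)
    (by positivity) hε.le le_rfl hs0
    (fun t _ ht => by
      rw [if_neg (by linarith)])
    (fun k hk => by
      split_ifs with h1
      · linarith
      · linarith)
  refine h.trans ?_
  apply mul_le_mul_of_nonneg_right _ (by positivity)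
  rw [hs5, mul_zero, Real.sqrt_zero]
  have e1 : 4 * ε * ((4 * ε + 2 * 0) / s) ^ 2 / (6 * s ^ 5) = 64 / 6 * s ^ 5 := by
    rw [← hs4]
    field_simp
    ring
  rw [e1]
  have e2 : 4 * s * ε = 4 * s ^ 5 := by
    rw [← hs4]; ring
  rw [e2]
  have : 0 < s ^ 5 := by positivity
  have e3 : √(s * 0) = 0 := by rw [mul_zero, Real.sqrt_zero]
  rw [e3]
  linarith

end Pool.Agent.V11262.K4
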